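import Pool.Agent.Lib.MP_299528_co.GW.D

set_option autoImplicit false

namespace Pool.Agent.Results.MP_299528_co.GWCFalse

/-- The generalized Wilf inequality fails, in arbitrarily large dimension. -/
theorem result (D : ℕ) : ∃ d : ℕ, D ≤ d ∧ ∃ S : Set (Fin d → ℕ),
    (0 : Fin d → ℕ) ∈ S ∧ (∀ x ∈ S, ∀ y ∈ S, x + y ∈ S) ∧ Sᶜ.Finite ∧
      {x : Fin d → ℕ | x ∈ S ∧ x ≠ 0 ∧ ∀ a ∈ S, ∀ b ∈ S, a + b = x → a = 0 ∨ b = 0}.ncard *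
          {x : Fin d → ℕ | x ∈ S ∧ ∃ h : Fin d → ℕ, h ∉ S ∧ x ≤ h}.ncard <
        d * {x : Fin d → ℕ | ∃ h : Fin d → ℕ, h ∉ S ∧ x ≤ h}.ncard := by
  by_contra H
  exact Pool.Agent.GW.not_allD D fun d hd S h0 ha hf =>
    not_lt.1 fun h => H ⟨d, hd, S, h0, ha, hf, h⟩

end Pool.Agent.Results.MP_299528_co.GWCFalse
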