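import Pool.Agent.Lib.MP_299528_co.W.Fin

set_option autoImplicit false

namespace Pool.Agent.Results.MP_299528_co.WilfAllButFinite

open Pool.Agent.Lib.MP_299528_co

/-- Wilf's inequality (the case `d = 1`) fails for at most finitely many numerical semigroups. -/
theorem result :
    {S : Set (Fin 1 → ℕ) | (0 : Fin 1 → ℕ) ∈ S ∧ (∀ x ∈ S, ∀ y ∈ S, x + y ∈ S) ∧ Sᶜ.Finite ∧
      eS S * nS S < cS S}.Finite := by
  obtain ⟨c₀, h⟩ := Bd.wilf_cofinite
  have hB : (Set.Iic (fun _ => c₀ : Fin 1 → ℕ)).Finite := Set.finite_Iic _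
  refine (hB.finite_subsets.image compl).subset fun S hS => ⟨Sᶜ, fun x hx => ?_, compl_compl S⟩
  obtain ⟨h0, hadd, hfin, hlt⟩ := hS
  have h1 : cS S < c₀ := not_le.1 fun hc => absurd (h S h0 hadd hfin hc) (not_le.2 hlt)
  have h2 : x 0 < cS S := not_le.1 fun hc => hx (mem_of_cS_le hfin hc)
  intro i
  rw [Subsingleton.elim i 0]
  exact (h2.trans h1).le

end Pool.Agent.Results.MP_299528_co.WilfAllButFinite
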