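import Pool.Agent.Lib.MP_299528_co.Short

set_option autoImplicit false

namespace Pool.Agent.Results.MP_299528_co.WilfCarryFree

open Pool.Agent.Lib.MP_299528_co

/-- Wilf's inequality (the case `d = 1`) holds when every sum of at least three minimal generators
that lies in the Apery set has residues modulo `m` adding up to at most the residue of the
Frobenius number. -/
theorem result (S : Set (Fin 1 → ℕ)) (h0 : (0 : Fin 1 → ℕ) ∈ S)
    (hadd : ∀ x ∈ S, ∀ y ∈ S, x + y ∈ S) (hfin : Sᶜ.Finite) (m : ℕ)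
    (hm : IsLeast {t : ℕ | 0 < t ∧ (Pi.single 0 t : Fin 1 → ℕ) ∈ S} m)
    (h : ∀ (P : Finset (Fin 1 → ℕ)) (a : (Fin 1 → ℕ) → ℕ),
      (∀ g ∈ P, g ∈ S ∧ g ≠ 0 ∧ ∀ x ∈ S, ∀ y ∈ S, x + y = g → x = 0 ∨ y = 0) →
      3 ≤ ∑ g ∈ P, a g → (∀ x ∈ S, x 0 + m ≠ ∑ g ∈ P, a g * g 0) →
      ∑ g ∈ P, a g * (g 0 % m) ≤ (cS S + m - 1) % m) : cS S ≤ eS S * nS S :=
  wilf_short h0 hadd hfin hm h

end Pool.Agent.Results.MP_299528_co.WilfCarryFree
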