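import Pool.Agent.Lib.MP_299528_co.FinMain

set_option autoImplicit false

namespace Pool.Agent.Results.MP_299528_co.WilfFiniteExceptions

open Pool.Agent.Lib.MP_299528_co

/-- Wilf's inequality (the case `d = 1`) holds exactly as soon as the conductor exceeds an explicit
function of the embedding dimension. -/
theorem result (S : Set (Fin 1 → ℕ)) (h0 : (0 : Fin 1 → ℕ) ∈ S)
    (hadd : ∀ x ∈ S, ∀ y ∈ S, x + y ∈ S) (hfin : Sᶜ.Finite)
    (hc : (4 * eS S) ^ (2 * eS S ^ 3) ≤ cS S) : cS S ≤ eS S * nS S :=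
  wilf_large h0 hadd hfin hc

end Pool.Agent.Results.MP_299528_co.WilfFiniteExceptions
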